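import Pool.Agent.H89.FLT.S

set_option autoImplicit false

open Matrix Polynomial

namespace Pool.FLT

namespace H22

/-- the transpose of the companion matrix -/
def cmp (n : ℕ) (P : ℤ[X]) : Matrix (Fin n) (Fin n) ℤ :=
  Matrix.of fun i j => if (i : ℕ) + 1 < n then (if (j : ℕ) = (i : ℕ) + 1 then 1 else 0)
    else - P.coeff j

/-- the eigenvectors -/
def van (n : ℕ) (θ : Fin n → ℝ) : Matrix (Fin n) (Fin n) ℝ := Matrix.of fun i k => θ k ^ (i : ℕ)

lemma van_eq (n : ℕ) (θ : Fin n → ℝ) : van n θ = (Matrix.vandermonde θ)ᵀ := by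
  ext i k
  simp [van, Matrix.vandermonde]

lemma cmp_van (n : ℕ) (P : ℤ[X]) (θ : Fin n → ℝ) (hP : P.Monic)
    (hd : P.natDegree = n) (hroot : ∀ k, (P.map (Int.castRingHom ℝ)).eval (θ k) = 0) :
    cst (cmp n P) * van n θ = van n θ * diagonal θ := by
  ext i k
  rw [Matrix.mul_diagonal, Matrix.mul_apply]
  have h0 : ∀ j : Fin n, cst (cmp n P) i j * van n θ j k =
      (((if (i : ℕ) + 1 < n then (if (j : ℕ) = (i : ℕ) + 1 then 1 else 0)
        else - P.coeff j : ℤ)) : ℝ) * θ k ^ (j : ℕ) := fun j => rfl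
  rw [Finset.sum_congr rfl fun j _ => h0 j]
  by_cases hi : (i : ℕ) + 1 < n
  · simp only [hi, if_true]
    rw [Finset.sum_eq_single (⟨(i : ℕ) + 1, hi⟩ : Fin n)]
    · simp [van, pow_succ]
    · intro j _ hj
      have : (j : ℕ) ≠ (i : ℕ) + 1 := fun h => hj (Fin.ext h)
      simp [this]
    · intro h
      exact absurd (Finset.mem_univ _) h
  · simp only [hi, if_false]
    have hi' : (i : ℕ) + 1 = n := by have := i.2; omega
    have h1 := hroot k
    have hnd : (P.map (Int.castRingHom ℝ)).natDegree = n := by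
      rw [hP.natDegree_map, hd]
    rw [Polynomial.eval_eq_sum_range, hnd, Finset.sum_range_succ] at h1
    have h2 : (P.map (Int.castRingHom ℝ)).coeff n = 1 := by
      have := (hP.map (Int.castRingHom ℝ)).coeff_natDegree
      rwa [hnd] at this
    rw [h2, one_mul, Finset.sum_range] at h1
    have h3 : ∑ j : Fin n, ((-P.coeff (j : ℕ) : ℤ) : ℝ) * θ k ^ (j : ℕ) =
        -∑ j : Fin n, (P.map (Int.castRingHom ℝ)).coeff (j : ℕ) * θ k ^ (j : ℕ) := by
      rw [← Finset.sum_neg_distrib]
      refine Finset.sum_congr rfl fun j _ => ?_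
      rw [Polynomial.coeff_map, eq_intCast]
      push_cast
      ring
    rw [h3]
    have h4 : van n θ i k * θ k = θ k ^ n := by
      show θ k ^ (i : ℕ) * θ k = θ k ^ n
      rw [← pow_succ, hi']
    rw [h4]
    linarith

end H22

open H22

theorem dia : DIAStmt := by
  intro n hn P θ hP hd hθ hmap
  have hroot : ∀ k, (P.map (Int.castRingHom ℝ)).eval (θ k) = 0 := by
    intro k
    rw [hmap, Polynomial.eval_prod]
    exact Finset.prod_eq_zero (Finset.mem_univ k) (by simp)
  have hCV := cmp_van n P θ hP hd hroot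
  have hdet : (van n θ).det ≠ 0 := by
    rw [van_eq, Matrix.det_transpose]
    exact Matrix.det_vandermonde_ne_zero_iff.mpr hθ
  set i0 : Fin n := ⟨0, hn⟩ with hi0
  set D : Matrix (Fin n) (Fin n) ℝ :=
    diagonal (fun i => if i = i0 then ((van n θ).det)⁻¹ else 1) with hD
  have hDdet : D.det = ((van n θ).det)⁻¹ := by
    rw [hD, Matrix.det_diagonal, Finset.prod_ite_eq' Finset.univ i0]
    simp
  have hgdet : (van n θ * D).det = 1 := by
    rw [Matrix.det_mul, hDdet, mul_inv_cancel₀ hdet]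
  have hcomm : diagonal θ * D = D * diagonal θ := by
    rw [hD, Matrix.diagonal_mul_diagonal, Matrix.diagonal_mul_diagonal]
    congr 1
    funext i
    ring
  have hDg : cst (cmp n P) * (van n θ * D) = (van n θ * D) * diagonal θ := by
    rw [← Matrix.mul_assoc, hCV, Matrix.mul_assoc, hcomm, Matrix.mul_assoc]
  refine ⟨cmp n P, ⟨van n θ * D, hgdet⟩, hDg, ?_⟩
  apply Polynomial.map_injective (Int.castRingHom ℝ) Int.cast_injective
  rw [hmap, ← Matrix.charpoly_map]
  have h1 : (cmp n P).map (Int.castRingHom ℝ) = cst (cmp n P) := rfl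
  rw [h1]
  have hinv : cst (cmp n P) = (van n θ * D) * diagonal θ * (van n θ * D)⁻¹ := by
    rw [← hDg, Matrix.mul_nonsing_inv_cancel_right _ _ (by rw [hgdet]; exact isUnit_one)]
  have hu : IsUnit (van n θ * D) := by
    rw [Matrix.isUnit_iff_isUnit_det, hgdet]
    exact isUnit_one
  have h2 : (cst (cmp n P)).charpoly = (diagonal θ).charpoly := by
    obtain ⟨u, hu'⟩ := hu
    have h3 := Matrix.charpoly_units_conj u (diagonal θ)
    rw [← h3, hinv, ← hu']
  rw [h2, Matrix.charpoly_diagonal]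

end Pool.FLT
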