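import Pool.Agent.H89.FLT.S

set_option autoImplicit false

open Matrix Polynomial

namespace Pool.FLT

namespace H22I

/-- the companion matrix of a polynomial of degree `n` -/
def com (n : ℕ) (P : ℤ[X]) : Matrix (Fin n) (Fin n) ℤ :=
  Matrix.of fun i j => if (j : ℕ) + 1 < n then (if (i : ℕ) = (j : ℕ) + 1 then 1 else 0)
    else - P.coeff i

lemma wm_com {n : ℕ} (η : Matrix (Fin n) (Fin n) ℤ) (v : Fin n → ℤ) :
    η * Wm η v = Wm η v * com n η.charpoly := by
  ext i j
  have hl : (η * Wm η v) i j = ((η ^ ((j : ℕ) + 1)).mulVec v) i := by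
    rw [pow_succ', ← Matrix.mulVec_mulVec, Matrix.mul_apply]
    rfl
  rw [hl, Matrix.mul_apply]
  have h0 : ∀ k : Fin n, Wm η v i k * com n η.charpoly k j =
      ((η ^ (k : ℕ)).mulVec v) i * (if (j : ℕ) + 1 < n then (if (k : ℕ) = (j : ℕ) + 1 then 1 else 0)
        else - η.charpoly.coeff k : ℤ) := fun k => rfl
  rw [Finset.sum_congr rfl fun k _ => h0 k]
  by_cases hj : (j : ℕ) + 1 < n
  · simp only [hj, if_true]
    rw [Finset.sum_eq_single (⟨(j : ℕ) + 1, hj⟩ : Fin n)]
    · simp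
    · intro k _ hk
      have : (k : ℕ) ≠ (j : ℕ) + 1 := fun h => hk (Fin.ext h)
      simp [this]
    · intro h
      exact absurd (Finset.mem_univ _) h
  · simp only [hj, if_false]
    have hj' : (j : ℕ) + 1 = n := by have := j.2; omega
    rw [hj']
    have hcard : Fintype.card (Fin n) = n := Fintype.card_fin n
    have hne : Nonempty (Fin n) := ⟨j⟩
    have hnd : η.charpoly.natDegree = n := by rw [Matrix.charpoly_natDegree_eq_dim, hcard]
    have h1 := Matrix.aeval_self_charpoly η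
    rw [Polynomial.aeval_eq_sum_range, hnd, Finset.sum_range_succ] at h1
    have h2 : η.charpoly.coeff n = 1 := by
      have := (Matrix.charpoly_monic η).coeff_natDegree
      rwa [hnd] at this
    rw [h2, one_smul, Finset.sum_range] at h1
    have h3 : η ^ n = -∑ k : Fin n, η.charpoly.coeff (k : ℕ) • η ^ (k : ℕ) := by
      rw [eq_neg_iff_add_eq_zero, add_comm]
      exact h1
    rw [h3, Matrix.neg_mulVec, Matrix.sum_mulVec, Pi.neg_apply, Finset.sum_apply,
      ← Finset.sum_neg_distrib]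
    refine Finset.sum_congr rfl fun k _ => ?_
    rw [Matrix.smul_mulVec, Pi.smul_apply, smul_eq_mul]
    ring

lemma fl_left {n : ℕ} (U : GZ n) (g : GR n) : fl ⊤ (inc n U * g) = fl ⊤ g := by
  ext h
  constructor
  · rintro ⟨γ, _, x, hx, k, hk, rfl⟩
    refine ⟨γ * U, trivial, x, hx, k, hk, ?_⟩
    rw [map_mul]
    simp only [mul_assoc]
  · rintro ⟨γ, _, x, hx, k, hk, rfl⟩
    refine ⟨γ * U⁻¹, trivial, x, hx, k, hk, ?_⟩
    rw [map_mul, map_inv]
    simp only [mul_assoc, inv_mul_cancel_left]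

lemma cst_mul {n : ℕ} (A B : Matrix (Fin n) (Fin n) ℤ) : cst (A * B) = cst A * cst B := by
  unfold cst
  exact Matrix.map_mul (f := Int.castRingHom ℝ)

end H22I

open H22I

theorem inj (hMFL : MFLStmt) : INJStmt := by
  intro n g g' η η' d d' v v' hg hg' hd hch hdet hne hdvd
  set W := Wm η v with hW
  set W' := Wm η' v' with hW'
  set m := W.det with hm
  -- `W' = W + m E`
  choose E0 hE0 using hdvd
  set E : Matrix (Fin n) (Fin n) ℤ := Matrix.of E0 with hE
  have hWE : W' = W + m • E := by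
    ext i j
    rw [Matrix.add_apply, Matrix.smul_apply, smul_eq_mul]
    have := hE0 i j
    show W' i j = W i j + m * E0 i j
    linarith
  set U : Matrix (Fin n) (Fin n) ℤ := 1 + E * W.adjugate with hU
  have hUW : U * W = W' := by
    rw [hU, Matrix.add_mul, Matrix.one_mul, Matrix.mul_assoc, Matrix.adjugate_mul, hWE,
      Matrix.mul_smul, Matrix.mul_one]
  have hUdet : U.det = 1 := by
    have h1 : U.det * m = m := by
      rw [hm, ← Matrix.det_mul, hUW, ← hdet]
    exact mul_right_cancel₀ hne (by rw [h1, one_mul])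
  have h1 := wm_com η v
  have h2 := wm_com η' v'
  rw [← hch] at h2
  have h3 : (η' * U - U * η) * W = 0 := by
    rw [Matrix.sub_mul, Matrix.mul_assoc, hUW, h2, Matrix.mul_assoc, h1, ← Matrix.mul_assoc, hUW,
      sub_self]
  have h4 : η' * U = U * η := by
    have h5 : m • (η' * U - U * η) = 0 := by
      have h6 : (η' * U - U * η) * W * W.adjugate = 0 := by rw [h3, Matrix.zero_mul]
      rw [Matrix.mul_assoc, Matrix.mul_adjugate, Matrix.mul_smul, Matrix.mul_one] at h6
      exact h6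
    rcases smul_eq_zero.mp h5 with h6 | h6
    · exact absurd h6 hne
    · exact sub_eq_zero.mp h6
  set U' : GZ n := ⟨U, hUdet⟩ with hU'
  have hinc : ((inc n U' : GR n) : Matrix (Fin n) (Fin n) ℝ) = cst U := rfl
  set h : GR n := inc n U' * g with hh
  have hhc : ((h : GR n) : Matrix (Fin n) (Fin n) ℝ) = cst U * (g : Matrix (Fin n) (Fin n) ℝ) := by
    rw [hh, Matrix.SpecialLinearGroup.coe_mul, hinc]
  have h5 : cst η' * (h : Matrix (Fin n) (Fin n) ℝ) = (h : Matrix (Fin n) (Fin n) ℝ) * diagonal d := by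
    rw [hhc, ← Matrix.mul_assoc, ← cst_mul, h4, cst_mul, Matrix.mul_assoc, hg, Matrix.mul_assoc]
  set M : GR n := h⁻¹ * g' with hMdef
  have hM1 : (h : Matrix (Fin n) (Fin n) ℝ) * (M : Matrix (Fin n) (Fin n) ℝ) =
      (g' : Matrix (Fin n) (Fin n) ℝ) := by
    rw [← Matrix.SpecialLinearGroup.coe_mul, hMdef, mul_inv_cancel_left]
  have h6 : diagonal d * (M : Matrix (Fin n) (Fin n) ℝ) =
      (M : Matrix (Fin n) (Fin n) ℝ) * diagonal d' := by
    have h7 : (h : Matrix (Fin n) (Fin n) ℝ) * (diagonal d * (M : Matrix (Fin n) (Fin n) ℝ)) =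
        (h : Matrix (Fin n) (Fin n) ℝ) * ((M : Matrix (Fin n) (Fin n) ℝ) * diagonal d') := by
      rw [← Matrix.mul_assoc, ← h5, Matrix.mul_assoc, hM1, ← Matrix.mul_assoc, hM1]
      exact hg'
    have h8 : ((h⁻¹ : GR n) : Matrix (Fin n) (Fin n) ℝ) *
        ((h : Matrix (Fin n) (Fin n) ℝ) * (diagonal d * (M : Matrix (Fin n) (Fin n) ℝ))) =
        ((h⁻¹ : GR n) : Matrix (Fin n) (Fin n) ℝ) *
        ((h : Matrix (Fin n) (Fin n) ℝ) * ((M : Matrix (Fin n) (Fin n) ℝ) * diagonal d')) := by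
      rw [h7]
    have h9 : ((h⁻¹ : GR n) : Matrix (Fin n) (Fin n) ℝ) * (h : Matrix (Fin n) (Fin n) ℝ) = 1 := by
      rw [← Matrix.SpecialLinearGroup.coe_mul, inv_mul_cancel, Matrix.SpecialLinearGroup.coe_one]
    have e : ∀ A : Matrix (Fin n) (Fin n) ℝ, ((h⁻¹ : GR n) : Matrix (Fin n) (Fin n) ℝ) *
        ((h : Matrix (Fin n) (Fin n) ℝ) * A) = A := fun A => by
      rw [← Matrix.mul_assoc, h9, Matrix.one_mul]
    rw [e, e] at h8
    exact h8
  have hMono : Mono (M : Matrix (Fin n) (Fin n) ℝ) := by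
    intro i j k hij
    by_contra hcon
    have hi : (M : Matrix (Fin n) (Fin n) ℝ) i k ≠ 0 := left_ne_zero_of_mul hcon
    have hj : (M : Matrix (Fin n) (Fin n) ℝ) j k ≠ 0 := right_ne_zero_of_mul hcon
    have e1 : ∀ i, (M : Matrix (Fin n) (Fin n) ℝ) i k ≠ 0 → d i = d' k := by
      intro i hi
      have e2 := congrFun (congrFun h6 i) k
      rw [Matrix.diagonal_mul, Matrix.mul_diagonal, mul_comm] at e2
      exact mul_left_cancel₀ hi e2
    exact hij (hd ((e1 i hi).trans (e1 j hj).symm))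
  have hgM : g' = h * M := by rw [hMdef, mul_inv_cancel_left]
  rw [hgM, hMFL n ⊤ h M hMono, hh, fl_left]

end Pool.FLT
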