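import Pool.Agent.H89.FLT.S

set_option autoImplicit false

open Matrix Polynomial

namespace Pool.FLT

namespace H22M

lemma ee_add {n : ℕ} (x y : aa n) : ee (x + y) = ee x * ee y := by
  apply Subtype.ext
  show Matrix.diagonal (fun i => Real.exp (((x + y : aa n) : EuclideanSpace ℝ (Fin n)) i)) =
    Matrix.diagonal (fun i => Real.exp ((x : EuclideanSpace ℝ (Fin n)) i)) *
      Matrix.diagonal (fun i => Real.exp ((y : EuclideanSpace ℝ (Fin n)) i))
  rw [Matrix.diagonal_mul_diagonal]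
  congr 1
  funext i
  rw [Submodule.coe_add, PiLp.add_apply, Real.exp_add]

lemma ee_zero {n : ℕ} : ee (0 : aa n) = 1 := by
  have h := ee_add (0 : aa n) 0
  rw [add_zero] at h
  exact (mul_eq_left.mp h.symm)

/-- the translations of the flat by elements of `Γ` -/
noncomputable def trl {n : ℕ} (Γ : Subgroup (GZ n)) (g : GR n) : AddSubgroup (aa n) where
  carrier := {s | ∃ γ ∈ Γ, inc n γ * g = g * ee s}
  add_mem' := by
    rintro a b ⟨γ, hγ, h⟩ ⟨γ', hγ', h'⟩
    refine ⟨γ * γ', Γ.mul_mem hγ hγ', ?_⟩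
    rw [map_mul, mul_assoc, h', ← mul_assoc, h, mul_assoc, ee_add]
  zero_mem' := ⟨1, Γ.one_mem, by rw [map_one, ee_zero, one_mul, mul_one]⟩
  neg_mem' := by
    rintro a ⟨γ, hγ, h⟩
    refine ⟨γ⁻¹, Γ.inv_mem hγ, ?_⟩
    rw [map_inv]
    have h1 : ee a * ee (-a) = 1 := by rw [← ee_add, add_neg_cancel, ee_zero]
    have h2 : g = (inc n γ)⁻¹ * g * ee a := by
      rw [mul_assoc, ← h, inv_mul_cancel_left]
    calc (inc n γ)⁻¹ * g = (inc n γ)⁻¹ * g * (ee a * ee (-a)) := by rw [h1, mul_one]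
      _ = ((inc n γ)⁻¹ * g * ee a) * ee (-a) := by rw [mul_assoc ((inc n γ)⁻¹ * g)]
      _ = g * ee (-a) := by rw [← h2]

lemma fl_eq {n : ℕ} (Γ : Subgroup (GZ n)) (g : GR n) (B : Set (aa n))
    (h : ∀ x : aa n, ∃ s ∈ trl Γ g, ∃ b ∈ B, x = s + b) : fl Γ g = flB Γ g B := by
  ext k
  constructor
  · rintro ⟨γ, hγ, x, -, u, hu, rfl⟩
    obtain ⟨s, ⟨γ', hγ', hs⟩, b, hb, rfl⟩ := h x
    refine ⟨γ * γ', Γ.mul_mem hγ hγ', b, hb, u, hu, ?_⟩
    rw [map_mul, ee_add, mul_assoc (inc n γ) (inc n γ') g, hs]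
    simp only [mul_assoc]
  · rintro ⟨γ, hγ, x, -, u, hu, rfl⟩
    exact ⟨γ, hγ, x, trivial, u, hu, rfl⟩

lemma finrank_le (n : ℕ) (hn : 1 ≤ n) : Module.finrank ℝ (aa n) ≤ n - 1 := by
  have h1 : aa n ≠ ⊤ := by
    intro h
    have h2 : (WithLp.toLp 2 (fun _ => (1 : ℝ)) : EuclideanSpace ℝ (Fin n)) ∈ aa n := by
      rw [h]; trivial
    have h3 : ∑ i : Fin n, (WithLp.toLp 2 (fun _ => (1 : ℝ)) : EuclideanSpace ℝ (Fin n)) i = 0 := h2
    simp at h3
    omega
  have h4 := Submodule.finrank_lt h1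
  rw [finrank_euclideanSpace, Fintype.card_fin] at h4
  omega

instance (n : ℕ) : (vol n).IsAddHaarMeasure := by
  unfold vol
  infer_instance

lemma vol_ball (n : ℕ) (hn : 1 ≤ n) (ρ : ℝ) (hρ : 1 ≤ ρ) :
    vol n (Metric.closedBall 0 ρ) ≤
      ENNReal.ofReal (ρ ^ (n - 1) * (vol n (Metric.ball 0 1)).toReal) := by
  rw [MeasureTheory.Measure.addHaar_closedBall _ _ (by linarith)]
  rw [ENNReal.ofReal_mul (by positivity), ENNReal.ofReal_toReal
    (Metric.isBounded_ball.measure_lt_top).ne]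
  exact mul_le_mul_left (ENNReal.ofReal_le_ofReal
    (pow_le_pow_right₀ hρ (finrank_le n hn))) _

lemma cst_sub {n : ℕ} (A B : Matrix (Fin n) (Fin n) ℤ) : cst (A - B) = cst A - cst B := by
  ext i j
  simp [cst]

lemma dg_sub {n : ℕ} {g : GR n} {η : Matrix (Fin n) (Fin n) ℤ} {d : Fin n → ℝ} (h : Dg g η d)
    (a : ℤ) : Dg g (η - a • (1 : Matrix (Fin n) (Fin n) ℤ)) (fun i => d i - a) := by
  unfold Dg at h ⊢
  have h1 : cst (a • (1 : Matrix (Fin n) (Fin n) ℤ)) = (a : ℝ) • (1 : Matrix (Fin n) (Fin n) ℝ) := by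
    ext i j
    unfold cst
    rw [Matrix.map_apply, Matrix.smul_apply, Matrix.smul_apply, Matrix.one_apply,
      Matrix.one_apply]
    split_ifs <;> simp
  have h2 : diagonal (fun i => d i - a) = diagonal d - (a : ℝ) • (1 : Matrix (Fin n) (Fin n) ℝ) := by
    ext i j
    rw [Matrix.sub_apply, Matrix.smul_apply, Matrix.diagonal_apply, Matrix.diagonal_apply,
      Matrix.one_apply]
    split_ifs <;> simp
  rw [cst_sub, h1, h2, Matrix.sub_mul, Matrix.mul_sub, h, Matrix.smul_mul, Matrix.mul_smul,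
    Matrix.one_mul, Matrix.mul_one]

end H22M

open H22M

theorem mem (hR : RTSStmt) (hD : DIAStmt) (hL : LOGStmt) (hS : SQRStmt) (hC : COLStmt) :
    MEMStmt := by
  intro n hn Γ hΓ
  obtain ⟨C1, H1, hC1, hLOG⟩ := hL n hn
  obtain ⟨m, hm, hSQR⟩ := hS n Γ hΓ
  set V1 : ℝ := (vol n (Metric.ball 0 1)).toReal with hV1
  have hV10 : 0 ≤ V1 := ENNReal.toReal_nonneg
  set K : ℝ := max C1 1 with hK
  have hK1 : 1 ≤ K := le_max_right _ _
  have hKC : C1 ≤ K := le_max_left _ _
  have hm1 : (1 : ℝ) ≤ m := by exact_mod_cast hm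
  have hn1 : (1 : ℝ) ≤ n := by exact_mod_cast (by omega : 1 ≤ n)
  have hq0 : 0 ≤ (n * (2 * m * K)) ^ (n - 1) * V1 := by positivity
  refine ⟨C1 + (n * (2 * m * K)) ^ (n - 1) * V1, max H1 4, by linarith, ?_⟩
  intro H t hH ht
  have hH1 : H1 ≤ H := (le_max_left _ _).trans hH
  have hH4 : 4 ≤ H := (le_max_right _ _).trans hH
  have hlog : 1 ≤ Real.log H := by
    have h1 : (4 : ℝ) ≤ H := by exact_mod_cast hH4
    rw [Real.le_log_iff_exp_le (by linarith)]
    have := Real.exp_one_lt_d9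
    linarith
  -- gaps
  have hgap : ∀ i j : Fin n, i < j → aH n H t i + 4 ≤ aH n H t j := by
    intro i j hij
    have hij' : (i : ℕ) + 1 ≤ (j : ℕ) := hij
    have h1 : (2 : ℤ) * ((i : ℕ) : ℤ) * H + 2 * H ≤ 2 * ((j : ℕ) : ℤ) * H := by
      have h2 : (((i : ℕ) + 1 : ℕ) : ℤ) * H ≤ ((j : ℕ) : ℤ) * H :=
        mul_le_mul_of_nonneg_right (by exact_mod_cast hij') (by positivity)
      push_cast at h2
      linarith
    have h3 : (t : ℤ) ≤ H := by exact_mod_cast ht
    have h4 : (4 : ℤ) ≤ H := by exact_mod_cast hH4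
    have h5 : (0 : ℤ) ≤ t := by positivity
    unfold aH
    split_ifs <;> linarith
  obtain ⟨θ, hθ1, hθ2⟩ := hR n hn (aH n H t) hgap
  have hinj : Function.Injective θ := by
    intro i j hij
    by_contra hne
    have key : ∀ i j : Fin n, i < j → θ i ≠ θ j := by
      intro i j hlt h
      have h1 : ((aH n H t i : ℤ) : ℝ) + 4 ≤ aH n H t j := by exact_mod_cast hgap i j hlt
      have h2 := abs_lt.mp (hθ1 i)
      have h3 := abs_lt.mp (hθ1 j)
      rw [h] at h2
      linarith [h2.1, h2.2, h3.1, h3.2]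
    rcases lt_or_gt_of_ne hne with h | h
    · exact key i j h hij
    · exact key j i h hij.symm
  have hmap : (PH n H t).map (Int.castRingHom ℝ) = ∏ i, (X - Polynomial.C (θ i)) := by
    rw [← hθ2]
    unfold PH
    rw [Polynomial.map_add, Polynomial.map_one, Polynomial.map_prod]
    congr 1
    refine Finset.prod_congr rfl fun j _ => ?_
    rw [Polynomial.map_sub, Polynomial.map_X, Polynomial.map_C, eq_intCast]
  have hmon : (∏ j : Fin n, (X - Polynomial.C (aH n H t j))).Monic :=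
    Polynomial.monic_prod_of_monic _ _ (fun j _ => Polynomial.monic_X_sub_C _)
  have hdeg : (∏ j : Fin n, (X - Polynomial.C (aH n H t j))).degree = (n : WithBot ℕ) := by
    rw [Polynomial.degree_prod, Finset.sum_congr rfl fun j _ => Polynomial.degree_X_sub_C _]
    simp
  have hone : (1 : ℤ[X]).degree < (∏ j : Fin n, (X - Polynomial.C (aH n H t j))).degree := by
    rw [hdeg, Polynomial.degree_one]
    exact_mod_cast (by omega : 0 < n)
  have hPm : (PH n H t).Monic := hmon.add_of_left hone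
  have hPd : (PH n H t).natDegree = n := by
    apply Polynomial.natDegree_eq_of_degree_eq_some
    unfold PH
    rw [Polynomial.degree_add_eq_left_of_degree_lt hone, hdeg]
  obtain ⟨η, g, hDg, hch⟩ := hD n (by omega) (PH n H t) θ hPm hPd hinj hmap
  obtain ⟨y, hy1, hy2, hy3⟩ := hLOG H t hH1 ht θ hθ1 hθ2
  have hyL : ∀ j, y j ∈ Lam g := fun j =>
    ⟨η - aH n H t j • (1 : Matrix (Fin n) (Fin n) ℤ), fun i => θ i - aH n H t j,
      dg_sub hDg _, fun i => hy1 i j⟩
  refine ⟨g, η, θ, hDg, hch, ⟨y ⟨0, by omega⟩, hyL _, ?_, ?_⟩, ?_⟩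
  · refine (hy2 _).trans ?_
    exact mul_le_mul_of_nonneg_right (by linarith) (by linarith)
  · intro i
    have h1 := hy1 i ⟨0, by omega⟩
    have h2 : aH n H t ⟨0, by omega⟩ = 0 := by
      unfold aH
      simp
    rw [h2, Int.cast_zero, sub_zero] at h1
    exact h1
  · intro T hT
    set r : ℝ := 2 * m * K * Real.log H with hr
    have hr1 : 1 ≤ r := by
      have h1 : (1 : ℝ) ≤ 2 * m := by linarith
      have h2 : (1 : ℝ) ≤ 2 * m * K := one_le_mul_of_one_le_of_one_le h1 hK1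
      exact one_le_mul_of_one_le_of_one_le h2 hlog
    have hnr1 : 1 ≤ n * r := one_le_mul_of_one_le_of_one_le hn1 hr1
    refine ⟨g, rfl, Metric.closedBall 0 (n * r), isCompact_closedBall _ _, ?_, ?_⟩
    · refine lt_of_le_of_lt (vol_ball n (by omega) _ hnr1) ?_
      have hlp : 0 ≤ (Real.log H) ^ (n - 1) := pow_nonneg (by linarith) _
      have h1 : (n * r) ^ (n - 1) * V1 =
          (n * (2 * m * K)) ^ (n - 1) * V1 * (Real.log H) ^ (n - 1) := by
        rw [hr, show (n : ℝ) * (2 * m * K * Real.log H) = (n * (2 * m * K)) * Real.log H by ring,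
          mul_pow]
        ring
      have h2 : 0 ≤ C1 * (Real.log H) ^ (n - 1) := by positivity
      have h3 : (n * r) ^ (n - 1) * V1 < T := by
        rw [h1]
        have h4 : (C1 + (n * (2 * m * K)) ^ (n - 1) * V1) * (Real.log H) ^ (n - 1) =
          C1 * (Real.log H) ^ (n - 1) +
            (n * (2 * m * K)) ^ (n - 1) * V1 * (Real.log H) ^ (n - 1) := by ring
        linarith
      have h5 : 0 ≤ (n * r) ^ (n - 1) * V1 := by positivity
      exact (ENNReal.ofReal_lt_ofReal_iff (lt_of_le_of_lt h5 h3)).mpr h3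
    · apply fl_eq
      intro x
      have hli : LinearIndependent ℝ (fun j : Fin (n - 1) =>
          (2 * m : ℝ) • y (Fin.castLE (Nat.sub_le n 1) j)) := by
        have h1 := hy3.units_smul (fun _ => Units.mk0 (2 * m : ℝ) (by positivity))
        exact h1
      obtain ⟨k, b, hb, hx⟩ := hC n hn (fun j : Fin (n - 1) =>
          (2 * m : ℝ) • y (Fin.castLE (Nat.sub_le n 1) j)) r hli (by
        intro j
        rw [norm_smul, Real.norm_of_nonneg (by positivity)]
        calc 2 * m * ‖y (Fin.castLE (Nat.sub_le n 1) j)‖ ≤ 2 * m * (C1 * Real.log H) :=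
              mul_le_mul_of_nonneg_left (hy2 _) (by positivity)
          _ ≤ 2 * m * (K * Real.log H) :=
              mul_le_mul_of_nonneg_left (mul_le_mul_of_nonneg_right hKC (by linarith))
                (by positivity)
          _ = r := by rw [hr]; ring) x
      refine ⟨∑ j, (k j : ℝ) • ((2 * m : ℝ) • y (Fin.castLE (Nat.sub_le n 1) j)), ?_, b, ?_, hx⟩
      · apply AddSubgroup.sum_mem
        intro j _
        rw [Int.cast_smul_eq_zsmul]
        apply AddSubgroup.zsmul_mem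
        exact hSQR g _ (hyL _)
      · rw [mem_closedBall_zero_iff]
        exact hb

end Pool.FLT
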