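import Pool.Agent.H89.FLT.S

set_option autoImplicit false

open Matrix Polynomial

namespace Pool.FLT

theorem rts : RTSStmt := by
  classical
  intro n hn a ha
  have hgap : ∀ i j, i ≠ j → (4 : ℝ) ≤ |(a i : ℝ) - a j| := by
    intro i j hij
    rcases lt_or_gt_of_ne hij with h | h
    · have h1 : ((a i : ℤ) : ℝ) + 4 ≤ a j := by exact_mod_cast ha i j h
      rw [abs_sub_comm, abs_of_nonneg (by linarith)]
      linarith
    · have h1 : ((a j : ℤ) : ℝ) + 4 ≤ a i := by exact_mod_cast ha j i h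
      rw [abs_of_nonneg (by linarith)]
      linarith
  set Q : ℝ[X] := (∏ j, (X - C (a j : ℝ))) + 1 with hQ
  have hev : ∀ x : ℝ, Q.eval x = (∏ j, (x - a j)) + 1 := by
    intro x
    rw [hQ, Polynomial.eval_add, Polynomial.eval_prod, Polynomial.eval_one]
    simp
  -- a root near every `a i`
  have hroot : ∀ i, ∃ θ : ℝ, |θ - a i| < 1 / 2 ∧ Q.eval θ = 0 := by
    intro i
    set R : ℝ → ℝ := fun x => ∏ j ∈ Finset.univ.erase i, (x - a j) with hR
    have hfac : ∀ x : ℝ, Q.eval x = (x - a i) * R x + 1 := by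
      intro x
      rw [hev, hR, Finset.mul_prod_erase Finset.univ (fun j => x - (a j : ℝ)) (Finset.mem_univ i)]
    have hbig : ∀ x : ℝ, |x - a i| ≤ 1 / 2 → 7 / 2 ≤ |R x| := by
      intro x hx
      rw [hR]
      simp only
      rw [Finset.abs_prod]
      have h1 : ∀ j ∈ Finset.univ.erase i, 7 / 2 ≤ |x - a j| := by
        intro j hj
        have h2 := hgap i j (Finset.ne_of_mem_erase hj).symm
        have h3 : |(a i : ℝ) - a j| ≤ |(a i : ℝ) - x| + |x - a j| := abs_sub_le _ _ _
        rw [abs_sub_comm (a i : ℝ) x] at h3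
        linarith
      have hcard : (Finset.univ.erase i).card = n - 1 := by
        rw [Finset.card_erase_of_mem (Finset.mem_univ i), Finset.card_univ, Fintype.card_fin]
      calc (7 / 2 : ℝ) ≤ (7 / 2) ^ (n - 1) := by
            have : (7 / 2 : ℝ) ^ 1 ≤ (7 / 2) ^ (n - 1) :=
              pow_le_pow_right₀ (by norm_num) (by omega)
            simpa using this
        _ = ∏ _j ∈ Finset.univ.erase i, (7 / 2 : ℝ) := by rw [Finset.prod_const, hcard]
        _ ≤ ∏ j ∈ Finset.univ.erase i, |x - a j| :=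
            Finset.prod_le_prod (fun _ _ => by norm_num) h1
    have hsign : 0 < R (a i - 1 / 2) * R (a i + 1 / 2) := by
      rw [hR]
      simp only
      rw [← Finset.prod_mul_distrib]
      apply Finset.prod_pos
      intro j hj
      have h2 := hgap i j (Finset.ne_of_mem_erase hj).symm
      have h3 : (4 : ℝ) ^ 2 ≤ ((a i : ℝ) - a j) ^ 2 := by
        rw [← sq_abs ((a i : ℝ) - a j)]
        exact pow_le_pow_left₀ (by norm_num) h2 2
      nlinarith
    have hb1 := hbig (a i - 1 / 2) (by rw [sub_sub_cancel_left, abs_neg]; norm_num)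
    have hb2 := hbig (a i + 1 / 2) (by rw [add_sub_cancel_left]; norm_num)
    have hf1 : Q.eval (a i - 1 / 2 : ℝ) = -(1 / 2) * R (a i - 1 / 2) + 1 := by
      rw [hfac]; ring
    have hf2 : Q.eval (a i + 1 / 2 : ℝ) = 1 / 2 * R (a i + 1 / 2) + 1 := by
      rw [hfac]; ring
    have hcont : ContinuousOn (fun x => Q.eval x) (Set.Icc (a i - 1 / 2 : ℝ) (a i + 1 / 2)) :=
      Q.continuous.continuousOn
    have hle : (a i - 1 / 2 : ℝ) ≤ a i + 1 / 2 := by linarith
    have fin : ∀ θ ∈ Set.Icc (a i - 1 / 2 : ℝ) (a i + 1 / 2), Q.eval θ = 0 →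
        Q.eval (a i - 1 / 2 : ℝ) ≠ 0 → Q.eval (a i + 1 / 2 : ℝ) ≠ 0 →
        |θ - a i| < 1 / 2 := by
      intro θ hθ h0 h1 h2
      have h3 : θ ≠ a i - 1 / 2 := fun h => h1 (h ▸ h0)
      have h4 : θ ≠ a i + 1 / 2 := fun h => h2 (h ▸ h0)
      have h5 := lt_of_le_of_ne hθ.1 h3.symm
      have h6 := lt_of_le_of_ne hθ.2 h4
      rw [abs_lt]
      constructor <;> linarith
    rcases lt_or_ge 0 (R (a i - 1 / 2)) with hpos | hneg
    · have hpos2 : 0 < R (a i + 1 / 2) := (pos_iff_pos_of_mul_pos hsign).mp hpos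
      rw [abs_of_pos hpos] at hb1
      rw [abs_of_pos hpos2] at hb2
      obtain ⟨θ, hθ, hθ0⟩ := intermediate_value_Icc hle hcont
        (show (0 : ℝ) ∈ Set.Icc (Q.eval (a i - 1 / 2 : ℝ)) (Q.eval (a i + 1 / 2 : ℝ)) from
          ⟨by rw [hf1]; linarith, by rw [hf2]; linarith⟩)
      exact ⟨θ, fin θ hθ hθ0 (by rw [hf1]; linarith) (by rw [hf2]; linarith), hθ0⟩
    · have hneg1 : R (a i - 1 / 2) < 0 := lt_of_le_of_ne hneg (fun h => by
        rw [h, zero_mul] at hsign
        exact lt_irrefl _ hsign)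
      have hneg2 : R (a i + 1 / 2) < 0 := by
        by_contra h
        push Not at h
        have := mul_nonpos_of_nonpos_of_nonneg hneg1.le h
        linarith
      rw [abs_of_neg hneg1] at hb1
      rw [abs_of_neg hneg2] at hb2
      obtain ⟨θ, hθ, hθ0⟩ := intermediate_value_Icc' hle hcont
        (show (0 : ℝ) ∈ Set.Icc (Q.eval (a i + 1 / 2 : ℝ)) (Q.eval (a i - 1 / 2 : ℝ)) from
          ⟨by rw [hf2]; linarith, by rw [hf1]; linarith⟩)
      exact ⟨θ, fin θ hθ hθ0 (by rw [hf1]; linarith) (by rw [hf2]; linarith), hθ0⟩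
  choose θ hθ1 hθ2 using hroot
  refine ⟨θ, hθ1, ?_⟩
  have hinj : Function.Injective θ := by
    intro i j hij
    by_contra hne
    have h1 := hgap i j hne
    have h2 := hθ1 i
    have h3 := hθ1 j
    rw [hij] at h2
    have h4 : |(a i : ℝ) - a j| ≤ |(a i : ℝ) - θ j| + |θ j - a j| := abs_sub_le _ _ _
    rw [abs_sub_comm (a i : ℝ) (θ j)] at h4
    linarith
  -- two monic polynomials of degree `n` with `n` common values
  have hmon1 : (∏ j, (X - C (a j : ℝ))).Monic := Polynomial.monic_prod_of_monic _ _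
    (fun j _ => Polynomial.monic_X_sub_C _)
  have hmon2 : (∏ i, (X - C (θ i))).Monic := Polynomial.monic_prod_of_monic _ _
    (fun j _ => Polynomial.monic_X_sub_C _)
  have hdeg1 : (∏ j, (X - C (a j : ℝ))).degree = (n : WithBot ℕ) := by
    rw [Polynomial.degree_prod, Finset.sum_congr rfl fun j _ => Polynomial.degree_X_sub_C _]
    simp
  have hdeg2 : (∏ i, (X - C (θ i))).degree = (n : WithBot ℕ) := by
    rw [Polynomial.degree_prod]
    simp
  have hone : (1 : ℝ[X]).degree < (∏ j, (X - C (a j : ℝ))).degree := by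
    rw [hdeg1, Polynomial.degree_one]
    exact_mod_cast (by omega : 0 < n)
  have hQd : Q.degree = (n : WithBot ℕ) := by
    rw [hQ, Polynomial.degree_add_eq_left_of_degree_lt hone, hdeg1]
  have hQm : Q.Monic := hmon1.add_of_left hone
  refine Polynomial.eq_of_degree_sub_lt_of_eval_index_eq (s := Finset.univ) (v := θ)
    (hinj.injOn) ?_ ?_
  · rw [Finset.card_univ, Fintype.card_fin, ← hQd]
    exact Polynomial.degree_sub_lt_left (by rw [hQd, hdeg2]) hQm.ne_zero (by rw [hQm, hmon2])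
  · intro i _
    rw [hθ2 i, Polynomial.eval_prod]
    exact (Finset.prod_eq_zero (Finset.mem_univ i) (by simp)).symm

end Pool.FLT
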